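import Mathlib
import Pool.Agent.Y547.UE.HD

/-!
# The Frobenius eigenvalues of `y² = x³ + δ x` over the extensions of a finite field
-/

set_option autoImplicit false
set_option linter.unusedSectionVars false

namespace Pool.Agent.D0H43.BQ

open Finset
open Pool.Agent.Y547.UE (nch nch_apply nch_mul nch_ne_one js_nch)

section fin

variable {k : Type} [Field k] [Fintype k] {χ : MulChar k ℂ}

theorem exists_quartic (h : 4 ∣ Fintype.card k - 1) :
    ∃ χ : MulChar k ℂ, χ ^ 4 = 1 ∧ χ ^ 2 ≠ 1 := by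
  have h1 : IsPrimitiveRoot (Complex.exp (2 * Real.pi * Complex.I / (4 : ℕ))) 4 :=
    Complex.isPrimitiveRoot_exp 4 (by norm_num)
  obtain ⟨χ, hχ⟩ := MulChar.exists_mulChar_orderOf k h h1
  refine ⟨χ, ?_, ?_⟩
  · rw [← hχ]
    exact pow_orderOf_eq_one χ
  · intro h2
    have := orderOf_dvd_of_pow_eq_one h2
    rw [hχ] at this
    omega

lemma chi4 (h : χ ^ 4 = 1) {x : k} (hx : x ≠ 0) : χ x ^ 4 = 1 := by
  have h1 : (χ ^ 4) ((Units.mk0 x hx : kˣ) : k) = (1 : MulChar k ℂ) (Units.mk0 x hx : kˣ) := by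
    rw [h]
  rw [MulChar.pow_apply_coe, MulChar.one_apply_coe, Units.val_mk0] at h1
  exact h1

lemma sq_apply (x : k) : (χ ^ 2) x = χ x ^ 2 := MulChar.pow_apply' _ two_ne_zero x

lemma inv_eq3 (h : χ ^ 4 = 1) : χ⁻¹ = χ ^ 3 := by
  rw [inv_eq_iff_mul_eq_one, ← pow_succ', h]

lemma ne2 (h : χ ^ 4 = 1) (h2 : χ ^ 2 ≠ 1) : ringChar k ≠ 2 := by
  intro hc
  apply h2
  ext x
  have h1 : IsSquare (x : k) := FiniteField.isSquare_of_char_two hc x
  obtain ⟨y, hy⟩ := h1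
  have hy0 : y ≠ 0 := by
    rintro rfl
    exact x.ne_zero (by rw [hy, mul_zero])
  rw [sq_apply, hy, map_mul, MulChar.one_apply (by rw [isUnit_iff_ne_zero]; exact mul_ne_zero hy0 hy0)]
  linear_combination chi4 h hy0

lemma eta_eq [DecidableEq k] (h : χ ^ 4 = 1) (h2 : χ ^ 2 ≠ 1) (a : k) :
    (χ ^ 2) a = ((quadraticChar k a : ℤ) : ℂ) := by
  by_cases ha : a = 0
  · rw [ha, MulChar.map_zero, MulChar.map_zero, Int.cast_zero]
  have hsq : ∀ b : k, b ≠ 0 → IsSquare b → (χ ^ 2) b = 1 := by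
    rintro b hb ⟨c, rfl⟩
    have hc : c ≠ 0 := left_ne_zero_of_mul hb
    rw [sq_apply, map_mul]
    linear_combination chi4 h hc
  rcases quadraticChar_dichotomy ha with h1 | h1
  · rw [h1, Int.cast_one]
    exact hsq a ha ((quadraticChar_one_iff_isSquare ha).1 h1)
  · obtain ⟨c, hc⟩ : ∃ c : kˣ, (χ ^ 2) (c : k) ≠ 1 := by
      by_contra hcon
      push Not at hcon
      apply h2
      ext x
      rw [hcon x, MulChar.one_apply_coe]
    have hc0 : (c : k) ≠ 0 := c.ne_zero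
    have h3 : quadraticChar k (c : k) = -1 := by
      rcases quadraticChar_dichotomy hc0 with h4 | h4
      · exact absurd (hsq c hc0 ((quadraticChar_one_iff_isSquare hc0).1 h4)) hc
      · exact h4
    have h5 : IsSquare (a * c) := by
      rw [← quadraticChar_one_iff_isSquare (mul_ne_zero ha hc0), map_mul, h1, h3]
      norm_num
    have h6 := hsq _ (mul_ne_zero ha hc0) h5
    rw [map_mul] at h6
    have h7 : (χ ^ 2) (c : k) = -1 := by
      have h8 : ((χ ^ 2) (c : k) - 1) * ((χ ^ 2) (c : k) + 1) = 0 := by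
        rw [sq_apply]
        linear_combination chi4 h hc0
      rcases mul_eq_zero.1 h8 with h9 | h9
      · exact absurd (sub_eq_zero.1 h9) hc
      · linear_combination h9
    rw [h7] at h6
    rw [h1]
    push_cast
    linear_combination -h6

/-- the number of square roots -/
lemma card_sqrt (h : χ ^ 4 = 1) (h2 : χ ^ 2 ≠ 1) (a : k) :
    (Nat.card {y : k // y ^ 2 = a} : ℂ) = 1 + (χ ^ 2) a := by
  classical
  have h1 := quadraticChar_card_sqrts (ne2 h h2) a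
  have h3 : (Nat.card {y : k // y ^ 2 = a} : ℤ) = quadraticChar k a + 1 := by
    rw [← h1, Nat.card_eq_fintype_card]
    congr 1
    rw [Set.toFinset_card]
    exact Fintype.card_congr (Equiv.refl _)
  rw [eta_eq h h2]
  have h4 : ((Nat.card {y : k // y ^ 2 = a} : ℤ) : ℂ) = ((quadraticChar k a + 1 : ℤ) : ℂ) := by rw [h3]
  push_cast at h4 ⊢
  rw [h4, add_comm]

/-- sums over the squares -/
lemma sum_sq (h : χ ^ 4 = 1) (h2 : χ ^ 2 ≠ 1) (g : k → ℂ) :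
    ∑ x : k, g (x ^ 2) = ∑ t : k, (1 + (χ ^ 2) t) * g t := by
  classical
  rw [← Finset.sum_fiberwise_of_maps_to (s := univ) (t := univ) (g := fun x : k => x ^ 2)
    (fun _ _ => mem_univ _)]
  refine Finset.sum_congr rfl fun t _ => ?_
  have e1 : ∑ x ∈ univ with x ^ 2 = t, g (x ^ 2) = ∑ x ∈ univ with x ^ 2 = t, g t := by
    refine Finset.sum_congr rfl fun x hx => ?_
    rw [(mem_filter.1 hx).2]
  rw [e1, Finset.sum_const, nsmul_eq_mul, ← card_sqrt h h2 t]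
  congr 2
  rw [Nat.card_eq_fintype_card, Fintype.card_subtype]

/-- the sum with a shift -/
lemma sum_shift (φ η : MulChar k ℂ) {δ : k} (hδ : δ ≠ 0) :
    ∑ t : k, φ t * η (t + δ) = φ (-δ) * η δ * jacobiSum φ η := by
  unfold jacobiSum
  rw [Finset.mul_sum]
  have e2 : Function.Bijective (fun y : k => -δ * y) := mulLeft_bijective₀ _ (neg_ne_zero.2 hδ)
  rw [← Function.Bijective.sum_comp e2]
  refine Finset.sum_congr rfl fun y _ => ?_
  have e3 : -δ * y + δ = δ * (1 - y) := by ring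
  rw [e3, map_mul, map_mul]
  ring

/-- the number of the affine points -/
theorem card_aff (h : χ ^ 4 = 1) (h2 : χ ^ 2 ≠ 1) {δ : k} (hδ : δ ≠ 0) :
    (Nat.card {p : k × k // p.2 ^ 2 = p.1 ^ 3 + δ * p.1} : ℂ) = Fintype.card k +
      (χ (-δ) * (χ ^ 2) δ * jacobiSum χ (χ ^ 2) +
        χ⁻¹ (-δ) * (χ ^ 2) δ * jacobiSum χ⁻¹ (χ ^ 2)) := by
  classical
  have e1 : Nat.card {p : k × k // p.2 ^ 2 = p.1 ^ 3 + δ * p.1} =
      ∑ x : k, Nat.card {y : k // y ^ 2 = x ^ 3 + δ * x} := by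
    rw [← Nat.card_sigma]
    refine Nat.card_congr
      { toFun := fun p => ⟨p.1.1, p.1.2, p.2⟩
        invFun := fun p => ⟨(p.1, p.2.1), p.2.2⟩
        left_inv := fun p => rfl
        right_inv := fun p => rfl }
  rw [e1]
  push_cast
  simp only [card_sqrt h h2]
  rw [Finset.sum_add_distrib, Finset.sum_const, Finset.card_univ, nsmul_eq_mul, mul_one]
  congr 1
  have e2 : ∀ x : k, (χ ^ 2) (x ^ 3 + δ * x) = χ (x ^ 2) * (χ ^ 2) (x ^ 2 + δ) := by
    intro x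
    have e : x ^ 3 + δ * x = x * (x ^ 2 + δ) := by ring
    rw [e, map_mul, sq_apply, map_pow]
  have h4 : ∀ t : k, χ t * (χ ^ 2) t = χ⁻¹ t := by
    intro t
    rw [inv_eq3 h, sq_apply, MulChar.pow_apply' _ three_ne_zero]
    ring
  simp only [e2]
  rw [sum_sq h h2 (fun t => χ t * (χ ^ 2) (t + δ)), ← sum_shift χ (χ ^ 2) hδ,
    ← sum_shift χ⁻¹ (χ ^ 2) hδ, ← Finset.sum_add_distrib]
  refine Finset.sum_congr rfl fun t _ => ?_
  rw [← h4 t]
  ring

lemma conj_apply (φ : MulChar k ℂ) (x : k) : (starRingEnd ℂ) (φ x) = φ⁻¹ x := by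
  rw [← MulChar.star_eq_inv, MulChar.star_apply]
  rfl

lemma conj_jac (φ η : MulChar k ℂ) : (starRingEnd ℂ) (jacobiSum φ η) = jacobiSum φ⁻¹ η⁻¹ := by
  unfold jacobiSum
  rw [map_sum]
  refine Finset.sum_congr rfl fun x _ => ?_
  rw [map_mul, conj_apply, conj_apply]

lemma sq_inv (h : χ ^ 4 = 1) : (χ ^ 2)⁻¹ = χ ^ 2 := by
  rw [inv_eq_iff_mul_eq_one, ← pow_add, h]

/-- the eigenvalue of the Frobenius -/
noncomputable def bt (χ : MulChar k ℂ) (δ : k) : ℂ :=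
  -(χ (-δ) * (χ ^ 2) δ * jacobiSum χ (χ ^ 2))

lemma bt_conj (h : χ ^ 4 = 1) (δ : k) :
    (starRingEnd ℂ) (bt χ δ) = -(χ⁻¹ (-δ) * (χ ^ 2) δ * jacobiSum χ⁻¹ (χ ^ 2)) := by
  unfold bt
  rw [map_neg, map_mul, map_mul, conj_apply, conj_apply, conj_jac, sq_inv h]

lemma ne_one' (h2 : χ ^ 2 ≠ 1) : χ ≠ 1 := by
  rintro rfl
  exact h2 (one_pow _)

lemma ne3 (h : χ ^ 4 = 1) (h2 : χ ^ 2 ≠ 1) : χ * χ ^ 2 ≠ 1 := by
  intro h3
  rw [← pow_succ'] at h3
  have h4 : χ ^ 4 = χ ^ (2 + 1) * χ := pow_succ χ 3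
  rw [h, h3, one_mul] at h4
  exact ne_one' h2 h4.symm

lemma bt_norm (h : χ ^ 4 = 1) (h2 : χ ^ 2 ≠ 1) {δ : k} (hδ : δ ≠ 0) :
    bt χ δ * (starRingEnd ℂ) (bt χ δ) = Fintype.card k := by
  have hχ : χ ≠ 1 := ne_one' h2
  have h3 : χ * χ ^ 2 ≠ 1 := ne3 h h2
  have h5 := jacobiSum_mul_jacobiSum_inv (F := k) (F' := ℂ) (by
    rw [ringChar.eq_zero]
    exact (CharP.char_ne_zero_of_finite k (ringChar k)).symm) hχ h2 h3
  rw [sq_inv h] at h5
  rw [bt_conj h]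
  unfold bt
  have h6 : χ (-δ) * χ⁻¹ (-δ) = 1 := by
    rw [← MulChar.mul_apply, mul_inv_cancel, MulChar.one_apply]
    rw [isUnit_iff_ne_zero]
    exact neg_ne_zero.2 hδ
  have h7 : (χ ^ 2) δ * (χ ^ 2) δ = 1 := by
    rw [sq_apply]
    linear_combination chi4 h hδ
  linear_combination (χ (-δ) * χ⁻¹ (-δ) * ((χ ^ 2) δ * (χ ^ 2) δ)) * h5 +
    (Fintype.card k : ℂ) * ((χ ^ 2) δ * (χ ^ 2) δ) * h6 + (Fintype.card k : ℂ) * h7

end fin

section ext

variable {k : Type} [Field k] [Fintype k] {χ : MulChar k ℂ}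
variable {E : Type} [Field E] [Fintype E] [Algebra k E]

lemma nch_one : nch E (1 : MulChar k ℂ) = 1 := by
  have : Module.Finite k E := Module.Finite.of_finite
  ext x
  rw [nch_apply, MulChar.one_apply_coe, MulChar.one_apply]
  exact (Units.map (Algebra.norm k) x).isUnit

lemma nch_pow (χ : MulChar k ℂ) (n : ℕ) : nch E (χ ^ n) = nch E χ ^ n := by
  induction n with
  | zero => rw [pow_zero, pow_zero, nch_one]
  | succ n ih => rw [pow_succ, pow_succ, nch_mul, ih]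

lemma nch_inv (χ : MulChar k ℂ) : nch E χ⁻¹ = (nch E χ)⁻¹ := by
  rw [eq_comm, inv_eq_iff_mul_eq_one, ← nch_mul, mul_inv_cancel, nch_one]

lemma nch_alg (χ : MulChar k ℂ) (x : k) :
    nch E χ (algebraMap k E x) = χ x ^ Module.finrank k E := by
  rw [nch_apply, Algebra.norm_algebraMap, map_pow]

lemma exists_psi : ∃ ψ : AddChar k ℂ, ψ ≠ 1 := by
  obtain ⟨ψ, hψ⟩ := (AddChar.exists_apply_ne_zero (a := (1 : k))).2 one_ne_zero
  refine ⟨ψ, ?_⟩
  rintro rfl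
  simp at hψ

lemma sgn_aux {r : ℕ} (hr : 0 < r) : ((-1 : ℂ)) ^ (r - 1) = -(-1) ^ r := by
  obtain ⟨s, rfl⟩ : ∃ s, r = s + 1 := ⟨r - 1, by omega⟩
  rw [Nat.add_sub_cancel, pow_succ]
  ring

/-- the points over the extensions -/
theorem card_E (h : χ ^ 4 = 1) (h2 : χ ^ 2 ≠ 1) {δ : k} (hδ : δ ≠ 0) :
    (Nat.card {p : E × E // p.2 ^ 2 = p.1 ^ 3 + algebraMap k E δ * p.1} : ℂ) = Nat.card E -
      (bt χ δ ^ Module.finrank k E + (starRingEnd ℂ) (bt χ δ) ^ Module.finrank k E) := by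
  have : Module.Finite k E := Module.Finite.of_finite
  obtain ⟨ψ, hψ⟩ := exists_psi (k := k)
  have hr : 0 < Module.finrank k E := Module.finrank_pos
  have hδ' : algebraMap k E δ ≠ 0 := by
    rwa [Ne, map_eq_zero_iff _ (algebraMap k E).injective]
  have hE4 : nch E χ ^ 4 = 1 := by rw [← nch_pow, h, nch_one]
  have hE2 : nch E χ ^ 2 ≠ 1 := by rw [← nch_pow]; exact nch_ne_one E h2
  have hχ1 : χ ≠ 1 := ne_one' h2
  have g1 : χ * χ ^ 2 ≠ 1 := ne3 h h2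
  have g2 : χ⁻¹ * χ ^ 2 ≠ 1 := by
    have : χ⁻¹ * χ ^ 2 = χ := by rw [pow_two, ← mul_assoc, inv_mul_cancel, one_mul]
    rw [this]
    exact hχ1
  have h3 := card_aff hE4 hE2 hδ'
  have e1 : -(algebraMap k E δ) = algebraMap k E (-δ) := (map_neg _ _).symm
  rw [← nch_pow, ← nch_inv, js_nch E g1 hψ, js_nch E g2 hψ, e1, nch_alg, nch_alg, nch_alg,
    sgn_aux hr] at h3
  rw [h3, Nat.card_eq_fintype_card, bt_conj h]
  unfold bt
  rw [neg_pow (χ (-δ) * (χ ^ 2) δ * jacobiSum χ (χ ^ 2)),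
    neg_pow (χ⁻¹ (-δ) * (χ ^ 2) δ * jacobiSum χ⁻¹ (χ ^ 2))]
  ring

end ext

end Pool.Agent.D0H43.BQ
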