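import Pool.Agent.D0H43.BQ.Fin

/-!
# The formula of Bloch and Soulé for the surfaces `y² = x³ + D x` over `ℤ[i, 1 / (2 D)]`: the end
-/

set_option autoImplicit false
set_option linter.unusedVariables false
set_option linter.unusedSectionVars false

open NumberField IsDedekindDomain CategoryTheory AlgebraicGeometry Filter
open scoped Classical

namespace Pool.Agent.D0H43.BQ

open Pool.Agent.D0H69.BS (CRN XN)
open H385 (ZI im1)
open Pool.Agent.D0H10.Q4 (Cv EntL RkZ FinT Facts InS OddI TwP)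
open Pool.Agent.D0H43.Q4.P (S6 FamR famRK NotOne Evn)

variable {K : Type} [Field K] [NumberField K]

/-- from a limit to a strict inequality -/
lemma ev_lt (e : ZI ≃+* 𝓞 K) (he : ∀ z : GaussianInt, Algebra.norm ℤ (e z) = z.norm)
    {P P' T T' : 𝓞 K → Prop} {x y : ℝ} (hy : 0 ≤ y) (hyx : y < x) (h : Tendsto (fun X : ℕ =>
      ({D : 𝓞 K | Algebra.norm ℤ D ≤ X ∧ P D ∧ T D}.ncard : ℝ) /
        ({D : 𝓞 K | Algebra.norm ℤ D ≤ X ∧ P' D}.ncard : ℝ)) atTop (nhds x))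
    (hT : ∀ D, P D → T D → P' D ∧ T' D) :
    ∀ᶠ X : ℕ in atTop, y * ({D : 𝓞 K | Algebra.norm ℤ D ≤ X ∧ P' D}.ncard : ℝ) <
      ({D : 𝓞 K | Algebra.norm ℤ D ≤ X ∧ P' D ∧ T' D}.ncard : ℝ) := by
  have hfin : ∀ X : ℕ, {D : 𝓞 K | Algebra.norm ℤ D ≤ X ∧ P' D ∧ T' D}.Finite := by
    intro X
    refine ((Pool.Agent.Y699.fin_norm_le X).image e).subset ?_
    rintro D ⟨hD, -⟩
    obtain ⟨z, rfl⟩ := e.surjective D
    rw [he] at hD
    refine ⟨z, ?_, rfl⟩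
    have h0 : 0 ≤ z.norm := GaussianInt.norm_nonneg z
    show z.norm.natAbs ≤ X
    omega
  filter_upwards [(tendsto_order.1 h).1 _ hyx] with X hX
  have h0 : (0 : ℝ) < ({D : 𝓞 K | Algebra.norm ℤ D ≤ X ∧ P' D}.ncard : ℝ) := by
    rcases (Nat.cast_nonneg (α := ℝ) {D : 𝓞 K | Algebra.norm ℤ D ≤ X ∧ P' D}.ncard).eq_or_lt
      with h1 | h1
    · rw [← h1, div_zero] at hX
      exact absurd hX (not_lt.2 hy)
    · exact h1
  rw [lt_div_iff₀ h0] at hX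
  refine lt_of_lt_of_le hX ?_
  have hsub : {D : 𝓞 K | Algebra.norm ℤ D ≤ X ∧ P D ∧ T D} ⊆
      {D : 𝓞 K | Algebra.norm ℤ D ≤ X ∧ P' D ∧ T' D} := fun D hD =>
    ⟨hD.1, hT D hD.2.1 hD.2.2⟩
  exact_mod_cast Set.ncard_le_ncard hsub (hfin X)

/-- **the final statement** -/
theorem final (K : Type) [Field K] [NumberField K] [IsCyclotomicExtension {4} ℚ K] :
    (∀ D : 𝓞 K, FamR D →
      ((WQ D).baseChange (Localization.Away (2 * D))).IsElliptic ∧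
      IsDomain (CRN (WQ D) (2 * D)) ∧
      (∃ F : ℂ → ℂ, IsZ (XN (WQ D) (2 * D)) F) ∧
      (FinT D → BSF D ∧ Finite (CommRing.Pic (CRN (WQ D) (2 * D))) ∧
        Module.rank ℤ (Additive (CRN (WQ D) (2 * D))ˣ) =
          {v : HeightOneSpectrum (𝓞 K) | 2 * D ∈ v.asIdeal}.ncard)) ∧
    (∀ᶠ X : ℕ in atTop,
      0.419 * ({D : 𝓞 K | Algebra.norm ℤ D ≤ X ∧ FamR D}.ncard : ℝ) <
        ({D : 𝓞 K | Algebra.norm ℤ D ≤ X ∧ FamR D ∧ BSF D}.ncard : ℝ)) ∧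
    (∀ᶠ X : ℕ in atTop,
      0.279 * ({D : 𝓞 K | Algebra.norm ℤ D ≤ X ∧ Squarefree D}.ncard : ℝ) <
        ({D : 𝓞 K | Algebra.norm ℤ D ≤ X ∧ Squarefree D ∧ BSF D}.ncard : ℝ)) := by
  obtain ⟨e, he⟩ := Pool.Agent.D0H10.Q4.Rng.exists_e K
  obtain ⟨h1, h2, h3, h4, h5, h6⟩ := Pool.Agent.D0H43.Q4.P.finalR Pool.Agent.D0H43.Q4.P.all6
    Pool.Agent.D0H10.Q4.sqfK K
  have hc := Pool.Agent.D0H10.Q4.Num.c2_ge
  have hm := fun (D : 𝓞 K) (hD : FamR D) => main e hD (h1 D hD)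
  refine ⟨fun D hD => ⟨disc_unit D, (hm D hD).1, (hm D hD).2.1, fun ht => ?_⟩, ?_, ?_⟩
  · obtain ⟨a1, a2, a3⟩ := (hm D hD).2.2 ht
    exact ⟨a3, a1, a2⟩
  · exact ev_lt e he (by norm_num) (by linarith) h2 fun D hD hT =>
      ⟨hD, ((hm D hD).2.2 hT).2.2⟩
  · exact ev_lt e he (by norm_num) (by linarith) h6 fun D hD hT =>
      ⟨hD.1, ((hm D (Or.inl hD)).2.2 hT).2.2⟩

end Pool.Agent.D0H43.BQ
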