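import Pool.Agent.D0H43.BQ.Loc
import Pool.Agent.D0H84.BS.Pic
import Pool.Agent.D0H17.BS.Rk
import Pool.Agent.D0H17.BS.Un
import Pool.Agent.D0H25.BS.Zk
import Pool.Agent.D0H43.Q4.AllR
import Pool.Agent.D0H10.Q4.Num

/-!
# The formula of Bloch and Soulé for the surfaces `y² = x³ + D x` over `ℤ[i, 1 / (2 D)]`
-/

set_option autoImplicit false
set_option linter.unusedVariables false
set_option linter.unusedSectionVars false

open NumberField IsDedekindDomain CategoryTheory AlgebraicGeometry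
open scoped Classical

namespace Pool.Agent.D0H43.BQ

open Pool.Agent.W189.NF (aV eV)
open Pool.Agent.H921R2.TatePole (nm two_le_nm)
open Pool.Agent.Y715.Z (q4 em0)
open Pool.Agent.D0H69.BS (CRN XN ZetaK zeta_mer fin_S Frob)
open H385 (ZI im1)
open Pool.Agent.D0H10.Q4 (Cv EntL RkZ FinT Facts InS OddI TwP)
open Pool.Agent.D0H43.Q4.P (S6 FamR famRK NotOne Evn)

/-- the zeta function of a scheme -/
def IsZ (S : Scheme.{0}) (F : ℂ → ℂ) : Prop :=
  MeromorphicOn F Set.univ ∧ ∀ s : ℂ, 2 < s.re →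
    Multipliable (fun x : {x : S // IsClosed ({x} : Set S)} =>
      (1 - ((Nat.card (S.residueField x.1) : ℂ) ^ (-s)))⁻¹) ∧
    F s = ∏' x : {x : S // IsClosed ({x} : Set S)},
      (1 - ((Nat.card (S.residueField x.1) : ℂ) ^ (-s)))⁻¹

/-- two meromorphic functions that agree in a half-plane have the same orders -/
lemma order_unique {F G : ℂ → ℂ} (hF : MeromorphicOn F Set.univ) (hG : MeromorphicOn G Set.univ)
    {σ : ℝ} (h : ∀ s : ℂ, σ < s.re → F s = G s) (s : ℂ) :
    meromorphicOrderAt F s = meromorphicOrderAt G s := by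
  have hH : MeromorphicOn (F - G) Set.univ := hF.sub hG
  have h0 : meromorphicOrderAt (F - G) ((σ + 1 : ℝ) : ℂ) = ⊤ := by
    rw [meromorphicOrderAt_eq_top_iff]
    have ho : IsOpen {s : ℂ | σ < s.re} := isOpen_lt continuous_const Complex.continuous_re
    have hm : ((σ + 1 : ℝ) : ℂ) ∈ {s : ℂ | σ < s.re} := by
      show σ < (((σ + 1 : ℝ) : ℂ)).re
      rw [Complex.ofReal_re]
      linarith
    filter_upwards [nhdsWithin_le_nhds (ho.mem_nhds hm)] with z hz
    have hz' : σ < z.re := hz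
    rw [Pi.sub_apply, h z hz', sub_self]
  have h1 : meromorphicOrderAt (F - G) s = ⊤ := by
    by_contra hs
    exact hH.meromorphicOrderAt_ne_top_of_isPreconnected isPreconnected_univ (Set.mem_univ s)
      (Set.mem_univ _) hs h0
  rw [meromorphicOrderAt_eq_top_iff] at h1
  refine meromorphicOrderAt_congr ?_
  filter_upwards [h1] with z hz
  exact sub_eq_zero.1 hz

variable {K : Type} [Field K] [NumberField K]

section cyc
variable [IsCyclotomicExtension {4} ℚ K]

lemma rank_zero : Units.rank K = 0 := by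
  dsimp only [Units.rank]
  rw [InfinitePlace.card_eq_nrRealPlaces_add_nrComplexPlaces,
    IsCyclotomicExtension.Rat.nrRealPlaces_eq_zero (n := 4) K (by decide),
    zero_add, IsCyclotomicExtension.Rat.nrComplexPlaces_eq_totient_div_two (n := 4)]
  rfl

lemma zetaK : ∃ Z : ℂ → ℂ, ZetaK K Z := by
  have h2 : Module.finrank ℚ K = 2 := by
    rw [IsCyclotomicExtension.finrank (n := 4) K (Polynomial.cyclotomic.irreducible_rat (by norm_num))]
    decide
  obtain ⟨ζ, hζ⟩ := IsCyclotomicExtension.exists_isPrimitiveRoot (S := {4}) ℚ K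
    (Set.mem_singleton 4) (by norm_num)
  have h3 : ζ ^ 2 = -1 := by
    have h4 : (ζ ^ 2 - 1) * (ζ ^ 2 + 1) = 0 := by
      have := hζ.pow_eq_one
      linear_combination this
    rcases mul_eq_zero.1 h4 with h | h
    · exfalso
      have h5 : ζ ^ 2 = 1 := sub_eq_zero.1 h
      have := hζ.dvd_of_pow_eq_one 2 h5
      omega
    · linear_combination h
  obtain ⟨Z, z1, z2, z3, z4, z5⟩ := Pool.Agent.D0H25.BS.zk K h2 (-1) ζ (by
    push_cast
    exact h3) (by norm_num)
  exact ⟨Z, z1, z2, z3, z4, z5⟩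

end cyc

/-- the equality of the two ways of writing the curve -/
lemma WQ_eq (D : 𝓞 K) : ((WQ D).baseChange K : WeierstrassCurve K) = Cv (D : K) := by
  unfold WQ Cv WeierstrassCurve.baseChange WeierstrassCurve.map
  simp

lemma WQ_disc (D : 𝓞 K) : (WQ D).Δ = -64 * D ^ 3 := by
  unfold WQ WeierstrassCurve.Δ WeierstrassCurve.b₂ WeierstrassCurve.b₄ WeierstrassCurve.b₆
    WeierstrassCurve.b₈
  ring

/-- the surface is smooth -/
lemma disc_unit (D : 𝓞 K) :
    ((WQ D).baseChange (Localization.Away (2 * D))).IsElliptic := by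
  refine ⟨?_⟩
  have h1 : IsUnit (algebraMap (𝓞 K) (Localization.Away (2 * D)) (2 * D)) :=
    IsLocalization.Away.algebraMap_isUnit (2 * D)
  rw [map_mul] at h1
  have h3 := isUnit_of_mul_isUnit_left h1
  have hD := isUnit_of_mul_isUnit_right h1
  show IsUnit ((WQ D).map (algebraMap (𝓞 K) (Localization.Away (2 * D)))).Δ
  rw [WeierstrassCurve.map_Δ, WQ_disc, map_mul, map_neg, map_pow, map_ofNat]
  rw [map_ofNat] at h3
  have h4 : (64 : Localization.Away (2 * D)) = 2 ^ 6 := by norm_num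
  rw [h4]
  exact ((h3.pow 6).neg).mul (hD.pow 3)

/-- the formula -/
def BSF (D : 𝓞 K) : Prop :=
  ∃ u p : ℕ, Module.rank ℤ (Additive (CRN (WQ D) (2 * D))ˣ) = u ∧
    Module.rank ℤ (Additive (CommRing.Pic (CRN (WQ D) (2 * D)))) = p ∧
    ∀ F : ℂ → ℂ, IsZ (XN (WQ D) (2 * D)) F →
      meromorphicOrderAt F 1 = (((u : ℤ) - (p : ℤ) : ℤ) : WithTop ℤ) ∧
      meromorphicOrderAt F 2 = ((-1 : ℤ) : WithTop ℤ) ∧
      ∀ m : ℕ, 3 ≤ m → meromorphicOrderAt F (m : ℂ) = 0

lemma entire_one {D : 𝓞 K} (hr : RkZ (Cv (D : K))) {G : ℂ → ℂ} (hG : Differentiable ℂ G)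
    (hGs : ∀ s : ℂ, 3 / 2 < s.re → G s = (Cv (D : K)).LSeries s) : G 1 ≠ 0 := by
  obtain ⟨-, h6, U, Lf, u1, u2, u3, u4, u5, u6, u7, u8⟩ := hr
  rw [Pool.Agent.D0H10.Q4.finrank_fin, iteratedDeriv_zero] at u8
  have hGa : AnalyticOnNhd ℂ G U := fun s _ => hG.analyticAt s
  have h2 : (2 : ℂ) ∈ U := u3 (by
    show (3 / 2 : ℝ) < (2 : ℂ).re
    norm_num)
  have he : G =ᶠ[nhds 2] Lf := by
    have ho : IsOpen {s : ℂ | (3 / 2 : ℝ) < s.re} := isOpen_lt continuous_const Complex.continuous_re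
    have hm : (2 : ℂ) ∈ {s : ℂ | (3 / 2 : ℝ) < s.re} := by
      show (3 / 2 : ℝ) < (2 : ℂ).re
      norm_num
    filter_upwards [ho.mem_nhds hm] with z hz
    rw [hGs z hz, u6 z hz]
  have := hGa.eqOn_of_preconnected_of_eventuallyEq u5 u2.isPreconnected h2 he
  rw [this u4]
  exact u8

lemma pid_loc {R : Type} (L : Type) [CommRing R] [IsPrincipalIdealRing R] [CommRing L]
    [Algebra R L] (M : Submonoid R) [IsLocalization M L] : IsPrincipalIdealRing L := by
  refine ⟨fun J => ?_⟩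
  obtain ⟨a, ha⟩ := (IsPrincipalIdealRing.principal (J.comap (algebraMap R L))).principal
  refine ⟨⟨algebraMap R L a, ?_⟩⟩
  have h1 : Ideal.map (algebraMap R L) (J.comap (algebraMap R L)) = J :=
    IsLocalization.map_under M L J
  rw [← h1, ha]
  exact (Ideal.map_span _ _).trans (by rw [Set.image_singleton])

lemma rank_fin (G : Type*) [AddCommGroup G] [Finite G] : Module.rank ℤ G = 0 := by
  rw [rank_eq_zero_iff]
  intro x
  refine ⟨(Nat.card G : ℤ), ?_, ?_⟩
  · exact_mod_cast Nat.card_pos.ne'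
  · rw [natCast_zsmul, card_nsmul_eq_zero']

/-- the Picard group -/
theorem fin_pic {N D : 𝓞 K} (hN : N ≠ 0) [IsPrincipalIdealRing (𝓞 K)]
    (hW : ((WQ D).baseChange (Localization.Away N)).IsElliptic)
    (hfin : Finite (Cv (D : K)).toAffine.Point) :
    ∃ _ : IsDomain (CRN (WQ D) N), Finite (CommRing.Pic (CRN (WQ D) N)) := by
  have hle : Submonoid.powers N ≤ nonZeroDivisors (𝓞 K) :=
    powers_le_nonZeroDivisors_of_noZeroDivisors hN
  have hdom : IsDomain (Localization.Away N) := IsLocalization.isDomain_localization hle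
  have hpid : IsPrincipalIdealRing (Localization.Away N) := pid_loc _ (Submonoid.powers N)
  have hun : ∀ y : Submonoid.powers N, IsUnit (algebraMap (𝓞 K) K y) := by
    rintro ⟨y, hy⟩
    refine isUnit_iff_ne_zero.2 fun h => ?_
    have h1 : y = 0 := (map_eq_zero_iff _ (FaithfulSMul.algebraMap_injective (𝓞 K) K)).1 h
    exact nonZeroDivisors.ne_zero (hle hy) h1
  let _ : Algebra (Localization.Away N) K :=
    (IsLocalization.lift (M := Submonoid.powers N) hun).toAlgebra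
  have hcomp : (algebraMap (Localization.Away N) K).comp (algebraMap (𝓞 K) (Localization.Away N)) =
      algebraMap (𝓞 K) K := IsLocalization.lift_comp hun
  have : IsScalarTower (𝓞 K) (Localization.Away N) K := IsScalarTower.of_algebraMap_eq' hcomp.symm
  have : IsFractionRing (Localization.Away N) K :=
    IsFractionRing.isFractionRing_of_isDomain_of_isLocalization (Submonoid.powers N)
      (Localization.Away N) K
  have e1 : (((WQ D).baseChange (Localization.Away N)).baseChange K : WeierstrassCurve K) =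
      Cv (D : K) := by
    rw [← WQ_eq]
    show ((WQ D).map (algebraMap (𝓞 K) (Localization.Away N))).map
      (algebraMap (Localization.Away N) K) = (WQ D).map (algebraMap (𝓞 K) K)
    rw [WeierstrassCurve.map_map, hcomp]
  obtain ⟨hd, hf⟩ := Pool.Agent.D0H84.BS.pic (Localization.Away N) K
    ((WQ D).baseChange (Localization.Away N)) hW.isUnit.ne_zero (by rw [e1]; exact hfin)
  exact ⟨hd, Finite.of_equiv _ (ClassGroup.equivPic _).toEquiv⟩

/-- the units -/
theorem rank_units {N D : 𝓞 K} (hN : N ≠ 0) [IsPrincipalIdealRing (𝓞 K)] (h0 : Units.rank K = 0)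
    (h1 : {v : HeightOneSpectrum (𝓞 K) | N ∈ v.asIdeal}.ncard ≠ 0) :
    Module.rank ℤ (Additive (CRN (WQ D) N)ˣ) =
        {v : HeightOneSpectrum (𝓞 K) | N ∈ v.asIdeal}.ncard := by
  have hle : Submonoid.powers N ≤ nonZeroDivisors (𝓞 K) :=
    powers_le_nonZeroDivisors_of_noZeroDivisors hN
  have hdom : IsDomain (Localization.Away N) := IsLocalization.isDomain_localization hle
  have h2 := Pool.Agent.D0H17.BS.rk K N hN
  rw [h0, zero_add] at h2
  have h3 : Module.rank ℤ (Additive (Localization.Away N)ˣ) =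
      {v : HeightOneSpectrum (𝓞 K) | N ∈ v.asIdeal}.ncard :=
    (Cardinal.toNat_eq_iff h1).1 h2
  rw [← h3]
  have h4 := Pool.Agent.D0H17.BS.un (Localization.Away N) ((WQ D).baseChange (Localization.Away N))
  exact ((MulEquiv.ofBijective _ h4).toAdditive.toIntLinearEquiv.rank_eq).symm

lemma two_not_unit [IsCyclotomicExtension {4} ℚ K] (e : ZI ≃+* 𝓞 K) : ¬ IsUnit (2 : 𝓞 K) := by
  intro h
  have h1 : IsUnit (e.symm 2) := h.map e.symm
  rw [map_ofNat] at h1
  have h2 := (Zsqrtd.isUnit_iff_norm_isUnit _).1 h1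
  revert h2
  decide

/-- **the surfaces** -/
theorem main [IsCyclotomicExtension {4} ℚ K] (e : ZI ≃+* 𝓞 K)
    {D : 𝓞 K} (hD : FamR D) (hf : Facts D) :
    IsDomain (CRN (WQ D) (2 * D)) ∧
    (∃ F : ℂ → ℂ, IsZ (XN (WQ D) (2 * D)) F) ∧
    (FinT D → Finite (CommRing.Pic (CRN (WQ D) (2 * D))) ∧
      Module.rank ℤ (Additive (CRN (WQ D) (2 * D))ˣ) =
        {v : HeightOneSpectrum (𝓞 K) | 2 * D ∈ v.asIdeal}.ncard ∧ BSF D) := by
  obtain ⟨D, rfl⟩ := e.surjective D
  have hin : InS S6 D := (famRK e D).1 hD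
  have hD0' : D ≠ 0 := by
    obtain ⟨p, hp, Δ, hΔ, rfl⟩ := hin
    unfold Pool.Agent.D0H10.Q4.cl
    exact mul_ne_zero (pow_ne_zero _ (by decide)) (mul_ne_zero
      (pow_ne_zero _ (by decide)) hΔ.ne)
  have hD0 : e D ≠ 0 := by
    rwa [Ne, map_eq_zero_iff e e.injective]
  obtain ⟨⟨G, hG, hGs⟩, hR⟩ := hf
  have hGs' : ∀ s : ℂ, 3 / 2 < s.re → G s = (Cv ((e D : 𝓞 K) : K)).LSeries s :=
    fun s hs => (hGs s hs).2
  obtain ⟨Z, hZ⟩ := zetaK (K := K)
  have h2 : (2 : 𝓞 K) ≠ 0 := two_ne_zero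
  have hN : 2 * e D ≠ 0 := mul_ne_zero h2 hD0
  obtain ⟨F, f1, f2, f3, f4, f5⟩ := zeta_mer (W := WQ (e D)) (E := q4 (em0 e D)) hN
    (fun v hv => (btq_spec e D v hv).1) (loc_D e hin) hZ hG hGs'
  have hFz : IsZ (XN (WQ (e D)) (2 * e D)) F := ⟨f1, fun s hs => f2 s hs⟩
  have : IsPrincipalIdealRing (𝓞 K) := by
    refine ⟨fun J => ?_⟩
    obtain ⟨a, ha⟩ := (IsPrincipalIdealRing.principal (J.comap (e : ZI →+* 𝓞 K))).principal
    refine ⟨⟨e a, ?_⟩⟩
    have h1 : Ideal.map (e : ZI →+* 𝓞 K) (J.comap (e : ZI →+* 𝓞 K)) = J :=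
      Ideal.map_comap_of_surjective _ e.surjective J
    rw [← h1, ha]
    exact (Ideal.map_span _ _).trans (by rw [Set.image_singleton]; rfl)
  have hle : Submonoid.powers (2 * e D) ≤ nonZeroDivisors (𝓞 K) :=
    powers_le_nonZeroDivisors_of_noZeroDivisors hN
  have hdom : IsDomain (Localization.Away (2 * e D)) := IsLocalization.isDomain_localization hle
  refine ⟨inferInstance, ⟨F, hFz⟩, fun ht => ?_⟩
  obtain ⟨hd, hp⟩ := fin_pic hN (disc_unit (e D)) ht.1
  have h1 : {v : HeightOneSpectrum (𝓞 K) | 2 * e D ∈ v.asIdeal}.ncard ≠ 0 := by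
    intro h0
    rw [Set.ncard_eq_zero (fin_S hN)] at h0
    have hu : ¬ IsUnit (2 * e D : 𝓞 K) := fun hu =>
      two_not_unit e (isUnit_of_mul_isUnit_left hu)
    obtain ⟨M, hM, hle⟩ := Ideal.exists_le_maximal (Ideal.span {2 * e D}) (by
      rwa [Ne, Ideal.span_singleton_eq_top])
    have hm : 2 * e D ∈ M := hle (Ideal.mem_span_singleton_self _)
    have hne : M ≠ ⊥ := fun h => hN (by rw [h] at hm; exact hm)
    have : (⟨M, hM.isPrime, hne⟩ : HeightOneSpectrum (𝓞 K)) ∈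
        {v : HeightOneSpectrum (𝓞 K) | 2 * e D ∈ v.asIdeal} := hm
    rw [h0] at this
    exact this
  have h2 := rank_units (D := e D) hN rank_zero h1
  refine ⟨hp, h2, _, 0, h2, ?_, fun F' hF' => ?_⟩
  · rw [rank_fin, Nat.cast_zero]
  · have hu : ∀ s : ℂ, meromorphicOrderAt F' s = meromorphicOrderAt F s :=
      order_unique hF'.1 hFz.1 (σ := 2) fun s hs => by rw [(hF'.2 s hs).2, (hFz.2 s hs).2]
    rw [hu, hu, f3 (entire_one (hR ht) hG hGs'), f4, Nat.cast_zero, sub_zero]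
    exact ⟨rfl, rfl, fun m hm => by rw [hu, f5 m hm]⟩

end Pool.Agent.D0H43.BQ
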