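import Pool.Agent.D0H43.BQ.Cnt
import Pool.Agent.D0H69.BS.Mer
import Pool.Agent.D0H69.Q4.Gen
import Pool.Agent.D0H43.Q4.FinR

/-!
# The local data of `y² = x³ + D x` over `ℤ[i]`
-/

set_option autoImplicit false
set_option linter.unusedSectionVars false

open NumberField IsDedekindDomain

namespace Pool.Agent.D0H43.BQ

open scoped Classical
open WeierstrassCurve
open Pool.Agent.Y699 hiding q4 wi S6 cl
open Pool.Agent.Y715.Z
open Pool.Agent.Y698 (AP min_count v_unit)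
open Pool.Agent.W189.NF (aV eV redMap Ov mem_max_iff finite_res card_res redMap_eq_zero aLoc eLoc
  redMap_surjective)
open Pool.Agent.H921R2.TatePole (nm two_le_nm)
open H385 (ZI RQ im1 nrm)
open Pool.Agent.W164.RC (tc_mul tc_star Ip Ip_spec)
open Pool.Agent.H304R2.EC.A1 (prim)
open Pool.Agent.D0H69.BS (Frob Sol Loc)
open Pool.Agent.D0H69.Q4 (bad_odd bad_two bad_two_of)
open Pool.Agent.D0H10.Q4 (cl InS)
open Pool.Agent.D0H43.Q4.P (S6)

variable {K : Type} [Field K] [NumberField K]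

/-- the integral model -/
def WQ (D : 𝓞 K) : WeierstrassCurve (𝓞 K) := ⟨0, 0, 0, D, 0⟩

lemma card_sol (D : 𝓞 K) {F : Type} [Field F] (f : 𝓞 K →+* F) :
    Nat.card (Sol (WQ D) f) = Nat.card {p : F × F // p.2 ^ 2 = p.1 ^ 3 + f D * p.1} := by
  refine Nat.card_congr (Equiv.subtypeEquivRight fun p => ?_)
  show p.2 ^ 2 + f 0 * p.1 * p.2 + f 0 * p.2 = p.1 ^ 3 + f 0 * p.1 ^ 2 + f D * p.1 + f 0 ↔ _
  simp only [map_zero, zero_mul, add_zero]

section field

variable (v : HeightOneSpectrum (𝓞 K))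

/-- the eigenvalues at a place not dividing two -/
theorem exists_bq (h4 : 4 ∣ nm v - 1) : ∃ β : 𝓞 K → ℂ, ∀ D : 𝓞 K, D ∉ v.asIdeal →
    Frob (WQ D) v (β D) ∧ (Nat.card {P : (𝓞 K ⧸ v.asIdeal) × (𝓞 K ⧸ v.asIdeal) //
          P.2 ^ 2 = P.1 ^ 3 + Ideal.Quotient.mk v.asIdeal D * P.1} : ℂ) =
            nm v - (β D + (starRingEnd ℂ) (β D)) := by
  have hm : v.asIdeal.IsMaximal := v.isMaximal
  letI : Field (𝓞 K ⧸ v.asIdeal) := Ideal.Quotient.field v.asIdeal
  have hq : Nat.card (𝓞 K ⧸ v.asIdeal) = nm v := Pool.Agent.D0H69.BS.nm_eq v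
  have hfin : Finite (𝓞 K ⧸ v.asIdeal) := by
    refine Nat.finite_of_card_ne_zero ?_
    rw [hq]
    have := two_le_nm v
    omega
  letI : Fintype (𝓞 K ⧸ v.asIdeal) := Fintype.ofFinite _
  have hcard : Fintype.card (𝓞 K ⧸ v.asIdeal) = nm v := by
    rw [← Nat.card_eq_fintype_card, hq]
  have hne : ∀ x : 𝓞 K, x ∉ v.asIdeal → Ideal.Quotient.mk v.asIdeal x ≠ 0 := fun x hx => by
    rwa [Ne, Ideal.Quotient.eq_zero_iff_mem]
  obtain ⟨χ, h1, h2⟩ := exists_quartic (k := 𝓞 K ⧸ v.asIdeal) (by rw [hcard]; exact h4)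
  refine ⟨fun D => bt χ (Ideal.Quotient.mk v.asIdeal D), fun D hD => ⟨⟨?_, ?_⟩, ?_⟩⟩
  · rw [bt_norm h1 h2 (hne D hD), hcard]
  · intro F _ _ f r hf hF
    letI alg : Algebra (𝓞 K ⧸ v.asIdeal) F :=
      (Ideal.Quotient.lift v.asIdeal f (fun x hx => by
        rw [← hf] at hx
        exact hx)).toAlgebra
    haveI : Module.Finite (𝓞 K ⧸ v.asIdeal) F := Module.Finite.of_finite
    letI : Fintype F := Fintype.ofFinite F
    have hfr : Module.finrank (𝓞 K ⧸ v.asIdeal) F = r := by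
      have h5 := Module.natCard_eq_pow_finrank (K := 𝓞 K ⧸ v.asIdeal) (V := F)
      rw [hF, hq] at h5
      exact (Nat.pow_right_injective (two_le_nm v) h5).symm
    have h3 := card_E (E := F) h1 h2 (hne D hD)
    rw [hfr] at h3
    rw [card_sol]
    exact h3
  · have h3 := card_aff h1 h2 (hne D hD)
    rw [h3, bt_conj h1, hcard]
    unfold bt
    ring

end field

variable (e : ZI ≃+* 𝓞 K)

/-- the eigenvalues through the number of points -/
theorem good_cnt {D : ZI} (v : HeightOneSpectrum (𝓞 K)) (hPP : PP (pg e v))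
    (hnD : ¬ pg e v ∣ D) :
    aV (q4 (em0 e D)) v = (nm v : ℤ) - (cnt4 v (Ideal.Quotient.mk v.asIdeal (e D)) : ℤ) ∧
      eV (q4 (em0 e D)) v = (nm v : ℤ) := by
  have hsp := pg_span e v
  set z := pg e v with hz
  have hzp : Prime z := pg_prime e v
  have hbc : (q4 (em0 e D)).baseChange (v.adicCompletion K) =
      q4 (algebraMap K (v.adicCompletion K) (em0 e D)) := q4_map _ _
  have hΔ : ¬ (cr4 (e D)).Δ ∈ v.asIdeal := by
    rw [cr4_Δ]
    rw [Pool.Agent.D0H69.Q4.disc_eq e, Pool.Agent.Y699.mem_iff e hsp]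
    intro h
    rcases hzp.dvd_or_dvd h with h4 | h4
    · have e5 : (-64 : ZI) = -(2 ^ 6) := by decide
      rw [e5, dvd_neg] at h4
      exact not_dvd_two hPP (hzp.dvd_of_dvd_pow h4)
    · exact hnD (hzp.dvd_of_dvd_pow h4)
  have hfin := finite_res v
  have hunit : IsUnit ((cr4 (algebraMap (𝓞 K) (Ov v) (e D))).Δ) := by
    have h3 := isUnit_of_notMem' hΔ
    rw [cr4_Δ] at h3 ⊢
    rw [map_mul, map_neg, map_ofNat, map_pow] at h3
    exact h3
  obtain ⟨c1, c2⟩ := min_count (v.adicCompletionIntegers K) hunit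
    (W := (q4 (em0 e D)).baseChange (v.adicCompletion K)) (by
      rw [hbc, cr4_mapL, coe_comp']
      rfl)
  have hAP : Nat.card (AP ((cr4 (algebraMap (𝓞 K) (Ov v) (e D))).map
      (IsLocalRing.residue (Ov v)))) = cnt4 v (Ideal.Quotient.mk v.asIdeal (e D)) := by
    unfold cnt4 AP
    refine (Nat.card_congr (Equiv.subtypeEquiv
      (Equiv.prodCongr (resE v).toEquiv (resE v).toEquiv) fun x => ?_)).symm
    rw [cr4_map, WeierstrassCurve.Affine.equation_iff]
    unfold cr4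
    simp only [zero_mul, add_zero]
    show _ ↔ (resE v x.2) ^ 2 = (resE v x.1) ^ 3 + (redMap v (e D)) * resE v x.1
    rw [← resE_mk, ← map_pow, ← map_pow, ← map_mul, ← map_add, (resE v).injective.eq_iff]
  constructor
  · unfold aV
    rw [c1, hAP, card_res]
  · unfold eV
    rw [c2, card_res]

lemma pi_dvd_two : (pi1 : ZI) ∣ 2 := pi1_two

lemma cases_v (v : HeightOneSpectrum (𝓞 K)) : pg e v = pi1 ∨ PP (pg e v) := by
  rcases pg_cases e v with ⟨h1, h2⟩ | ⟨h1, h2⟩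
  · exact Or.inl h2
  · exact Or.inr ⟨(Ip_spec (Pool.Agent.H921R2.TatePole.below v).2 h2).2.1,
      (Ip_spec (Pool.Agent.H921R2.TatePole.below v).2 h2).1⟩

include e in
/-- the residue fields contain a square root of `-1` -/
lemma four_dvd (v : HeightOneSpectrum (𝓞 K)) (h2 : (2 : 𝓞 K) ∉ v.asIdeal) : 4 ∣ nm v - 1 := by
  have hm : v.asIdeal.IsMaximal := v.isMaximal
  letI : Field (𝓞 K ⧸ v.asIdeal) := Ideal.Quotient.field v.asIdeal
  have hq : Nat.card (𝓞 K ⧸ v.asIdeal) = nm v := Pool.Agent.D0H69.BS.nm_eq v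
  have hfin : Finite (𝓞 K ⧸ v.asIdeal) := by
    refine Nat.finite_of_card_ne_zero ?_
    rw [hq]
    have := two_le_nm v
    omega
  letI : Fintype (𝓞 K ⧸ v.asIdeal) := Fintype.ofFinite _
  have h20 : (2 : 𝓞 K ⧸ v.asIdeal) ≠ 0 := by
    intro h
    apply h2
    rw [← Ideal.Quotient.eq_zero_iff_mem, map_ofNat]
    exact h
  set x : 𝓞 K ⧸ v.asIdeal := Ideal.Quotient.mk v.asIdeal (e im1) with hx
  have hx2 : x ^ 2 = -1 := by
    rw [hx, ← map_pow, ← map_pow]
    have : (im1 : ZI) ^ 2 = -1 := by decide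
    rw [this, map_neg, map_neg, map_one, map_one]
  have hx0 : x ≠ 0 := by
    intro h
    rw [h] at hx2
    have : (1 : 𝓞 K ⧸ v.asIdeal) = 0 := by
      rw [zero_pow two_ne_zero] at hx2
      linear_combination hx2
    exact one_ne_zero this
  have ho : orderOf (Units.mk0 x hx0) = 2 ^ (1 + 1) := by
    refine orderOf_eq_prime_pow ?_ ?_
    · intro h
      have h1 := congrArg Units.val h
      rw [Units.val_pow_eq_pow_val, Units.val_mk0, pow_one, hx2, Units.val_one] at h1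
      apply h20
      linear_combination -h1
    · apply Units.ext
      rw [Units.val_pow_eq_pow_val, Units.val_mk0, Units.val_one]
      have : x ^ 2 ^ (1 + 1) = (x ^ 2) ^ 2 := by ring
      rw [this, hx2]
      norm_num
  have h3 := orderOf_dvd_card (x := Units.mk0 x hx0)
  rw [ho, Fintype.card_units, ← Nat.card_eq_fintype_card, hq] at h3
  exact h3

/-- **the local data at the good places** -/
theorem exists_frob (D : ZI) (v : HeightOneSpectrum (𝓞 K)) (h : 2 * e D ∉ v.asIdeal) :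
    ∃ β : ℂ, Frob (WQ (e D)) v β ∧ (aV (q4 (em0 e D)) v : ℂ) = β + (starRingEnd ℂ) β ∧
      (eV (q4 (em0 e D)) v : ℂ) = nm v := by
  have h2 : (2 : 𝓞 K) ∉ v.asIdeal := fun h' => h (Ideal.mul_mem_right _ _ h')
  have hD : e D ∉ v.asIdeal := fun h' => h (Ideal.mul_mem_left _ _ h')
  have hsp := pg_span e v
  have hnD : ¬ pg e v ∣ D := fun h' => hD ((Pool.Agent.Y699.mem_iff e hsp D).2 h')
  have hPP : PP (pg e v) := by
    rcases cases_v e v with h1 | h1
    · exfalso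
      apply h2
      have h3 : e 2 ∈ v.asIdeal := by
        rw [Pool.Agent.Y699.mem_iff e hsp, h1]
        exact pi_dvd_two
      rwa [map_ofNat] at h3
    · exact h1
  obtain ⟨β, hβ⟩ := exists_bq v (four_dvd e v h2)
  obtain ⟨b1, b2⟩ := hβ (e D) hD
  obtain ⟨g1, g2⟩ := good_cnt e v hPP hnD
  refine ⟨β (e D), b1, ?_, ?_⟩
  · rw [g1]
    push_cast
    unfold cnt4
    rw [b2]
    ring
  · rw [g2]
    push_cast
    rfl

/-- **the bad places** -/
theorem bad_fam {D : ZI} (hD : InS S6 D) {v : HeightOneSpectrum (𝓞 K)}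
    (h : 2 * e D ∈ v.asIdeal) : aV (q4 (em0 e D)) v = 0 ∧ eV (q4 (em0 e D)) v = 0 := by
  obtain ⟨p, hp, Δ, hΔ, rfl⟩ := hD
  have hsp := pg_span e v
  have e2 : (2 : 𝓞 K) * e (cl p.1 p.2 Δ) = e (2 * cl p.1 p.2 Δ) := by rw [map_mul, map_ofNat]
  rw [e2, Pool.Agent.Y699.mem_iff e hsp] at h
  have hpd : ¬ pi1 ∣ Δ := pi1_prim hΔ.prm
  have hu : ∀ n : ℕ, IsUnit (im1 ^ n : ZI) := fun n =>
    (IsUnit.of_mul_eq_one (-im1) (by decide) : IsUnit (im1 : ZI)).pow n
  rcases cases_v e v with h1 | h1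
  · have hv : v = plc e pi1_prime := by
      apply HeightOneSpectrum.ext
      show v.asIdeal = Ideal.span {e pi1}
      rw [← h1]
      exact hsp
    have key : ∀ p ∈ S6, (p.2 = 0 ∧ p.1 % 2 = 1) ∨ (1 ≤ p.2 ∧ p.2 ≤ 2) := by decide
    rcases key p hp with ⟨k1, k2⟩ | ⟨k1, k2⟩
    · have e3 : cl p.1 p.2 Δ = im1 ^ p.1 * Δ := by
        unfold cl
        rw [k1, pow_zero, one_mul]
      rw [e3]
      have h3 := Pool.Agent.D0H69.Q4.odd_twist k2 hΔ.prm
      exact bad_two e h3.1 h3.2 v hv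
    · refine bad_two_of e (b := p.2) (c := im1 ^ p.1 * Δ) (by omega) ?_ ?_ v hv
      · unfold cl
        ring
      · rw [(hu p.1).dvd_mul_left]
        exact hpd
  · have hz := pg_prime e v
    have hz2 : ¬ pg e v ∣ 2 := not_dvd_two h1
    have hzp : ¬ pg e v ∣ pi1 := fun h' => hz2 (h'.trans pi_dvd_two)
    have hzD : pg e v ∣ Δ := by
      have h3 := (hz.dvd_or_dvd h).resolve_left hz2
      unfold cl at h3
      rw [(hu p.1).dvd_mul_left] at h3
      exact (hz.dvd_or_dvd h3).resolve_left fun h' => hzp (hz.dvd_of_dvd_pow h')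
    refine bad_odd e v h1 ?_ ?_
    · unfold cl
      exact (hzD.mul_left _).mul_left _
    · obtain ⟨w, hw⟩ := hzD
      rintro ⟨w', hw'⟩
      unfold cl at hw'
      have h5 : pg e v * (im1 ^ p.1 * (pi1 ^ p.2 * w)) = pg e v * (pg e v * w') := by
        calc pg e v * (im1 ^ p.1 * (pi1 ^ p.2 * w)) = im1 ^ p.1 * (pi1 ^ p.2 * (pg e v * w)) := by ring
          _ = im1 ^ p.1 * (pi1 ^ p.2 * Δ) := by rw [← hw]
          _ = pg e v * pg e v * w' := hw'
          _ = _ := by ring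
      have h6 := mul_left_cancel₀ hz.ne_zero h5
      have h7 : pg e v ∣ im1 ^ p.1 * (pi1 ^ p.2 * w) := ⟨w', h6⟩
      rw [(hu p.1).dvd_mul_left] at h7
      have h8 : pg e v ∣ w := (hz.dvd_or_dvd h7).resolve_left fun h' => hzp (hz.dvd_of_dvd_pow h')
      obtain ⟨w2, hw2⟩ := h8
      refine hz.not_isUnit (hΔ.sqf _ ⟨w2, ?_⟩)
      rw [hw, hw2]
      ring

/-- the function of the eigenvalues -/
noncomputable def btq (D : ZI) (v : HeightOneSpectrum (𝓞 K)) : ℂ :=
  if h : 2 * e D ∉ v.asIdeal then (exists_frob e D v h).choose else 0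

lemma btq_spec (D : ZI) (v : HeightOneSpectrum (𝓞 K)) (h : 2 * e D ∉ v.asIdeal) :
    Frob (WQ (e D)) v (btq e D v) ∧ (aV (q4 (em0 e D)) v : ℂ) =
        btq e D v + (starRingEnd ℂ) (btq e D v) ∧
      (eV (q4 (em0 e D)) v : ℂ) = nm v := by
  unfold btq
  rw [dif_pos h]
  exact (exists_frob e D v h).choose_spec

theorem loc_D {D : ZI} (hD : InS S6 D) : Loc (q4 (em0 e D)) (2 * e D) (btq e D) where
  nrm v h := (btq_spec e D v h).1.1
  aV v h := (btq_spec e D v h).2.1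
  eV v h := (btq_spec e D v h).2.2
  bad _ hv := bad_fam e hD hv

end Pool.Agent.D0H43.BQ
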